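import Pool.Agent.N963.KL.Stm
import Pool.Agent.N799.TL.Main

/-!
Project KL, task SHA: shifts of the Xi function and zero-free half planes (helper747).
-/

set_option autoImplicit false

namespace Pool.Agent.N747.KL

open Complex
open Pool.Agent.N963.KL (Xi)
open Pool.Agent.N799.TL (xi)

theorem Xi_xi (z : ℂ) : Xi z = xi (1 / 2 + I * z) := by
  unfold Xi Pool.Agent.N799.TL.xi
  ring

theorem shift (a : ℝ) (z : ℂ) : Xi (z + I * a) + Xi (z - I * a) =
    xi (1 / 2 + I * z + a) + 1 * xi (1 / 2 + I * z - a) := by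
  have e1 : 1 / 2 + I * (z + I * a) = 1 / 2 + I * z - a := by
    have : I * (z + I * a) = I * z + (I * I) * a := by ring
    rw [this, I_mul_I]
    ring
  have e2 : 1 / 2 + I * (z - I * a) = 1 / 2 + I * z + a := by
    have : I * (z - I * a) = I * z - (I * I) * a := by ring
    rw [this, I_mul_I]
    ring
  rw [Xi_xi, Xi_xi, e1, e2, one_mul, add_comm]

theorem half_re : ((1 : ℂ) / 2).re = 1 / 2 := by norm_num

theorem half_im : ((1 : ℂ) / 2).im = 0 := by norm_num

theorem s_re (z : ℂ) : (1 / 2 + I * z).re = 1 / 2 - z.im := by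
  rw [add_re, half_re, mul_re, I_re, I_im]
  ring

theorem s_im (z : ℂ) : (1 / 2 + I * z).im = z.re := by
  rw [add_im, half_im, mul_im, I_re, I_im]
  ring

/-- the inverse substitution -/
theorem inv_s (s : ℂ) : 1 / 2 + I * (-(I * (s - 1 / 2))) = s := by
  have : I * (-(I * (s - 1 / 2))) = -((I * I) * (s - 1 / 2)) := by ring
  rw [this, I_mul_I]
  ring

theorem sha : Pool.Agent.N963.KL.S_SHA := by
  constructor
  · intro a ha0 ha1 hfin
    obtain ⟨B, hB⟩ := (hfin.image fun z => |z.re|).bddAbove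
    obtain ⟨σ, -, hσ, h⟩ := Pool.Agent.N799.TL.free_of (a := a) (δ := 1 / 2 - a) (t₀ := B + 1)
      (c := 1) ha0 ha1 (by linarith) (by simp) (by
        intro s hs hst
        obtain ⟨z, hz⟩ : ∃ z, z = -(I * (s - 1 / 2)) := ⟨_, rfl⟩
        have e : 1 / 2 + I * z = s := by rw [hz]; exact inv_s s
        have h1 : Xi (z + I * a) + Xi (z - I * a) = 0 := by
          rw [shift, e]
          exact hs
        have h2 : s.re = 1 / 2 - z.im := by rw [← e]; exact s_re z
        have h3 : s.im = z.re := by rw [← e]; exact s_im z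
        have h4 : z.im = 0 := by
          by_contra hne
          have h5 : |z.re| ≤ B := hB ⟨z, ⟨h1, hne⟩, rfl⟩
          rw [h3] at hst
          linarith
        rw [h2, h4]
        simp)
    exact ⟨σ, hσ, h⟩
  · rintro ⟨σ, hσ, h⟩
    obtain ⟨a, ha0, ha1, ha⟩ := ((Pool.Agent.N799.TL.main 1 (by simp)).2.1).1
      ⟨max σ (3 / 4), lt_of_lt_of_le (by norm_num) (le_max_right _ _), max_lt hσ (by norm_num),
        fun s hs => h s ((le_max_left _ _).trans hs)⟩
    refine ⟨a, ha0, ha1, fun z hz => ?_⟩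
    rw [shift] at hz
    have h1 := ha _ hz
    rw [s_re] at h1
    linarith

end Pool.Agent.N747.KL
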